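import Pool.Agent.W426.LE.SG

set_option autoImplicit false
set_option linter.all false

/-! The list colouring criterion from the coefficient formula. -/

namespace Pool.Agent.W440.LE.Crit

open Finset Pool.Agent.W426.LE
open scoped Classical

variable {V E D C : Type} [Fintype V] [Fintype E] [Fintype D] [Fintype C]

/-- the Vandermonde determinant of the nodes `0, …, d - 1` -/
noncomputable def FF (d : ℕ) : ℚ := (Matrix.vandermonde (fun i : Fin d => ((i : ℕ) : ℚ))).det

lemma FF_ne (d : ℕ) : FF d ≠ 0 := by
  unfold FF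
  rw [Matrix.det_vandermonde_ne_zero_iff]
  intro i j h
  have h' : ((i : ℕ) : ℚ) = ((j : ℕ) : ℚ) := h
  exact Fin.ext (by exact_mod_cast h')

lemma vand {d : ℕ} (δ : D ≃ Fin d) (ρ : D ≃ C) (f : D → C) :
    (Matrix.vandermonde (fun i : Fin d => ((δ (ρ.symm (f (δ.symm i))) : ℕ) : ℚ))).det =
      (sg ρ f : ℚ) * FF d := by
  by_cases h : Function.Bijective f
  · obtain ⟨e, rfl⟩ := exists_equiv f h
    rw [sg_equiv]
    have h1 : Matrix.vandermonde (fun i : Fin d => ((δ (ρ.symm (e (δ.symm i))) : ℕ) : ℚ)) =
        (Matrix.vandermonde (fun i : Fin d => ((i : ℕ) : ℚ))).submatrix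
          ((δ.symm.trans ((e.trans ρ.symm).trans δ) : Equiv.Perm (Fin d))) id := by
      ext i j
      simp [Matrix.vandermonde_apply]
    rw [h1, Matrix.det_permute]
    have h2 : Equiv.Perm.sign (δ.symm.trans ((e.trans ρ.symm).trans δ) : Equiv.Perm (Fin d)) =
        Equiv.Perm.sign (e.trans ρ.symm : Equiv.Perm D) :=
      Equiv.Perm.sign_symm_trans_trans (e.trans ρ.symm : Equiv.Perm D) δ
    rw [h2]
    rfl
  · rw [sg_of_not ρ f h]
    rw [Int.cast_zero, zero_mul, Matrix.det_vandermonde_eq_zero_iff]
    have h1 : ¬ Function.Injective f := by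
      intro h2
      apply h
      rw [Fintype.bijective_iff_injective_and_card]
      exact ⟨h2, Fintype.card_congr ρ⟩
    unfold Function.Injective at h1
    push Not at h1
    obtain ⟨a, b, hab, hne⟩ := h1
    refine ⟨δ a, δ b, by simp [hab], fun h2 => hne (δ.injective h2)⟩

/-- the graph polynomial -/
noncomputable def PP {d : ℕ} (δ : D ≃ Fin d) (inc : V → D → E) : MvPolynomial E ℚ :=
  ∏ v, ∏ i : Fin d, ∏ j ∈ Ioi i,
    (MvPolynomial.X (inc v (δ.symm j)) - MvPolynomial.X (inc v (δ.symm i)))

lemma eval_PP {d : ℕ} (δ : D ≃ Fin d) (inc : V → D → E) (x : E → ℚ) :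
    MvPolynomial.eval x (PP δ inc) =
      ∏ v, (Matrix.vandermonde (fun i : Fin d => x (inc v (δ.symm i)))).det := by
  unfold PP
  rw [map_prod]
  refine Finset.prod_congr rfl fun v _ => ?_
  rw [Matrix.det_vandermonde, map_prod]
  refine Finset.prod_congr rfl fun i _ => ?_
  rw [map_prod]
  refine Finset.prod_congr rfl fun j _ => ?_
  simp

lemma two_mul_sum_Ioi (d : ℕ) : 2 * ∑ i : Fin d, (Ioi i).card = d * (d - 1) := by
  have h1 : ∑ i : Fin d, (Ioi i).card = ∑ i ∈ range d, (d - 1 - i) := by
    rw [← Fin.sum_univ_eq_sum_range (fun i => d - 1 - i)]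
    refine Finset.sum_congr rfl fun i _ => ?_
    rw [Fin.card_Ioi]
  rw [h1, Finset.sum_range_reflect (fun i => i) d, mul_comm, Finset.sum_range_id_mul_two]

lemma deg_PP {d : ℕ} (δ : D ≃ Fin d) (inc : V → D → E)
    (hinc : 2 * Fintype.card E = Fintype.card V * d) :
    (PP δ inc).totalDegree ≤ Fintype.card E * (d - 1) := by
  have h1 : (PP δ inc).totalDegree ≤ ∑ v : V, ∑ i : Fin d, (Ioi i).card := by
    unfold PP
    refine (MvPolynomial.totalDegree_finset_prod _ _).trans (Finset.sum_le_sum fun v _ => ?_)
    refine (MvPolynomial.totalDegree_finset_prod _ _).trans (Finset.sum_le_sum fun i _ => ?_)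
    refine (MvPolynomial.totalDegree_finset_prod _ _).trans ?_
    rw [Finset.card_eq_sum_ones]
    refine Finset.sum_le_sum fun j _ => ?_
    refine (MvPolynomial.totalDegree_sub _ _).trans ?_
    simp
  rw [Finset.sum_const, Finset.card_univ, smul_eq_mul] at h1
  have h2 := two_mul_sum_Ioi d
  have h3 : 2 * (Fintype.card V * ∑ i : Fin d, (Ioi i).card) = 2 * (Fintype.card E * (d - 1)) := by
    calc 2 * (Fintype.card V * ∑ i : Fin d, (Ioi i).card)
        = Fintype.card V * (2 * ∑ i : Fin d, (Ioi i).card) := by ring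
      _ = Fintype.card V * (d * (d - 1)) := by rw [h2]
      _ = (Fintype.card V * d) * (d - 1) := by ring
      _ = (2 * Fintype.card E) * (d - 1) := by rw [hinc]
      _ = _ := by ring
  omega

/-- double counting -/
lemma double {inc : V → D → E} (hinc : ∀ e, Fintype.card {q : V × D // inc q.1 q.2 = e} = 2)
    (S : Finset E) :
    2 * S.card = (univ.filter (fun q : V × D => inc q.1 q.2 ∈ S)).card := by
  rw [Finset.card_eq_sum_card_fiberwise (f := fun q : V × D => inc q.1 q.2) (t := S)]
  · have h1 : ∀ e ∈ S, ((univ.filter (fun q : V × D => inc q.1 q.2 ∈ S)).filter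
        (fun q => inc q.1 q.2 = e)).card = 2 := by
      intro e he
      rw [← hinc e, Fintype.card_subtype, Finset.filter_filter]
      congr 1
      ext q
      simp only [mem_filter, mem_univ, true_and]
      constructor
      · exact fun h => h.2
      · intro h
        exact ⟨h ▸ he, h⟩
    rw [Finset.sum_congr rfl h1, Finset.sum_const, smul_eq_mul, mul_comm]
  · intro q hq
    rw [Finset.mem_coe, mem_filter] at hq
    exact hq.2

/-- the weights -/
noncomputable def ww (d : ℕ) (c : Fin d) : ℚ :=
  (∏ c' ∈ univ.erase c, (((c : ℕ) : ℚ) - ((c' : ℕ) : ℚ)))⁻¹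

lemma ww_ne (d : ℕ) (c : Fin d) : ww d c ≠ 0 := by
  unfold ww
  apply inv_ne_zero
  rw [Finset.prod_ne_zero_iff]
  intro c' hc' h
  rw [mem_erase] at hc'
  apply hc'.1
  have h1 : ((c : ℕ) : ℚ) = ((c' : ℕ) : ℚ) := sub_eq_zero.1 h
  exact (Fin.ext (by exact_mod_cast h1)).symm

/-- every colour class of a proper colouring has `|V| / 2` edges -/
lemma classes {inc : V → D → E} (hinc : ∀ e, Fintype.card {q : V × D // inc q.1 q.2 = e} = 2)
    (x : E → C) (hx : ∀ v, Function.Bijective (fun i => x (inc v i))) (c : C) :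
    2 * (univ.filter (fun e => x e = c)).card = Fintype.card V := by
  rw [double hinc]
  have h1 : univ.filter (fun q : V × D => inc q.1 q.2 ∈ univ.filter (fun e => x e = c)) =
      univ.image (fun v : V => (v, (Equiv.ofBijective _ (hx v)).symm c)) := by
    ext ⟨v, i⟩
    simp only [mem_filter, mem_univ, true_and, mem_image, Prod.mk.injEq]
    constructor
    · intro h
      refine ⟨v, rfl, ?_⟩
      rw [Equiv.symm_apply_eq]
      exact h.symm
    · rintro ⟨v', rfl, h⟩
      rw [Equiv.symm_apply_eq] at h
      exact h.symm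
  rw [h1, Finset.card_image_of_injective, Finset.card_univ]
  intro v v' h
  exact congrArg Prod.fst h

theorem main (h : Pool.Agent.W426.LE.S_CF) : Pool.Agent.W426.LE.S_CRIT := by
  intro V E D C _ _ _ _ ρ inc hinc hNN L hL
  rcases Nat.eq_zero_or_pos (Fintype.card D) with h0 | hd
  · have hD : IsEmpty D := Fintype.card_eq_zero_iff.1 h0
    refine ⟨fun _ => 0, fun e => ?_, fun v => Function.injective_of_subsingleton _⟩
    exfalso
    have h1 := hinc e
    have h2 : 0 < Fintype.card {q : V × D // inc q.1 q.2 = e} := by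
      rw [h1]
      norm_num
    obtain ⟨q⟩ := Fintype.card_pos_iff.1 h2
    exact hD.false q.1.2
  · obtain ⟨d, hdd⟩ : ∃ d, d = Fintype.card D := ⟨_, rfl⟩
    rw [← hdd] at hd hL
    let δ : D ≃ Fin d := (Fintype.equivFin D).trans (finCongr hdd.symm)
    -- the number of edges
    have hE : 2 * Fintype.card E = Fintype.card V * d := by
      have h1 := double hinc (univ : Finset E)
      rw [Finset.card_univ] at h1
      rw [h1, hdd, ← Fintype.card_prod, ← Finset.card_univ]
      congr 1
      ext q
      simp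
    have hdeg := deg_PP δ inc hE
    have hCF := h E d hd (PP δ inc) hdeg
    -- transport of the colours
    let γ : C ≃ Fin d := ρ.symm.trans δ
    have hsum : ∑ x : E → Fin d, MvPolynomial.eval (fun e => ((x e : ℕ) : ℚ)) (PP δ inc) *
        ∏ e, (∏ c ∈ univ.erase (x e), (((x e : ℕ) : ℚ) - ((c : ℕ) : ℚ)))⁻¹ =
        ∑ x : E → C, (∏ v, ((sg ρ (fun i => x (inc v i)) : ℤ) : ℚ)) *
          (FF d ^ Fintype.card V * ∏ c : Fin d, ww d c ^ (Fintype.card V / 2)) := by
      rw [← Equiv.sum_comp (Equiv.arrowCongr (Equiv.refl E) γ)]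
      refine Finset.sum_congr rfl fun x _ => ?_
      have e1 : ∀ e, (Equiv.arrowCongr (Equiv.refl E) γ) x e = δ (ρ.symm (x e)) := fun e => rfl
      rw [eval_PP]
      have h1 : ∀ v, (Matrix.vandermonde (fun i : Fin d =>
          (((Equiv.arrowCongr (Equiv.refl E) γ) x (inc v (δ.symm i)) : ℕ) : ℚ))).det =
          ((sg ρ (fun i => x (inc v i)) : ℤ) : ℚ) * FF d := by
        intro v
        exact vand δ ρ (fun i => x (inc v i))
      rw [Finset.prod_congr rfl (fun v _ => h1 v), Finset.prod_mul_distrib, Finset.prod_const,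
        Finset.card_univ, mul_assoc]
      by_cases hz : ∀ v, Function.Bijective (fun i => x (inc v i))
      · congr 2
        -- the product of the weights
        have h2 : ∏ e, (∏ c ∈ univ.erase ((Equiv.arrowCongr (Equiv.refl E) γ) x e),
            ((((Equiv.arrowCongr (Equiv.refl E) γ) x e : ℕ) : ℚ) - ((c : ℕ) : ℚ)))⁻¹ =
            ∏ e, ww d (γ (x e)) := rfl
        rw [h2]
        have h3 : ∏ e, ww d (γ (x e)) =
            ∏ c : Fin d, ∏ e ∈ univ.filter (fun e => γ (x e) = c), ww d (γ (x e)) :=
          (Finset.prod_fiberwise _ _ _).symm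
        rw [h3]
        refine Finset.prod_congr rfl fun c _ => ?_
        have h4 : ∏ e ∈ univ.filter (fun e => γ (x e) = c), ww d (γ (x e)) =
            ∏ e ∈ univ.filter (fun e => γ (x e) = c), ww d c := by
          refine Finset.prod_congr rfl fun e he => ?_
          rw [mem_filter] at he
          rw [he.2]
        rw [h4, Finset.prod_const]
        congr 1
        have h5 := classes hinc x hz (γ.symm c)
        have h6 : (univ.filter (fun e => γ (x e) = c)) = univ.filter (fun e => x e = γ.symm c) := by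
          ext e
          simp only [mem_filter, mem_univ, true_and]
          rw [Equiv.eq_symm_apply]
        rw [h6]
        omega
      · push Not at hz
        obtain ⟨v, hv⟩ := hz
        have h2 : ∏ v, ((sg ρ (fun i => x (inc v i)) : ℤ) : ℚ) = 0 := by
          apply Finset.prod_eq_zero (Finset.mem_univ v)
          rw [sg_of_not ρ _ hv, Int.cast_zero]
        rw [h2, zero_mul, zero_mul]
    rw [hsum, ← Finset.sum_mul] at hCF
    have hNN' : ∑ x : E → C, (∏ v, ((sg ρ (fun i => x (inc v i)) : ℤ) : ℚ)) = ((NN ρ inc : ℤ) : ℚ) := by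
      unfold NN
      push_cast
      rfl
    rw [hNN'] at hCF
    have hcoef : (PP δ inc).coeff (Finsupp.equivFunOnFinite.symm (fun _ => d - 1)) ≠ 0 := by
      rw [hCF]
      refine mul_ne_zero (by exact_mod_cast hNN) (mul_ne_zero (pow_ne_zero _ (FF_ne d)) ?_)
      rw [Finset.prod_ne_zero_iff]
      intro c _
      exact pow_ne_zero _ (ww_ne d c)
    have hdegt : (Finsupp.equivFunOnFinite.symm (fun _ : E => d - 1)).degree =
        Fintype.card E * (d - 1) := by
      rw [Finsupp.degree_eq_sum]
      simp
    have htot : (PP δ inc).totalDegree = (Finsupp.equivFunOnFinite.symm (fun _ : E => d - 1)).degree := by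
      apply le_antisymm
      · rw [hdegt]
        exact hdeg
      · have h1 := MvPolynomial.le_totalDegree (p := PP δ inc)
          (s := Finsupp.equivFunOnFinite.symm (fun _ : E => d - 1))
          (MvPolynomial.mem_support_iff.2 hcoef)
        rw [Finsupp.degree_eq_sum]
        rw [Finsupp.sum_fintype _ _ (fun _ => rfl)] at h1
        exact h1
    obtain ⟨y, hy, hyne⟩ := MvPolynomial.combinatorial_nullstellensatz_exists_eval_nonzero
      (PP δ inc) _ hcoef htot (fun e => (L e).image (fun n : ℕ => (n : ℚ))) (by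
        intro e
        rw [Finset.card_image_of_injective _ Nat.cast_injective]
        have := hL e
        simp only [Finsupp.equivFunOnFinite_symm_apply_apply]
        omega)
    have hf : ∀ e, ∃ n ∈ L e, (n : ℚ) = y e := by
      intro e
      have := hy e
      rw [Finset.mem_image] at this
      exact this
    choose f hfL hfy using hf
    refine ⟨f, hfL, fun v i j hij => ?_⟩
    rw [eval_PP] at hyne
    have h1 := (Finset.prod_ne_zero_iff.1 hyne) v (Finset.mem_univ v)
    rw [Matrix.det_vandermonde_ne_zero_iff] at h1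
    apply δ.injective
    apply h1
    simp only [Equiv.symm_apply_apply]
    rw [← hfy, ← hfy]
    exact_mod_cast hij

end Pool.Agent.W440.LE.Crit
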